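import Pool.Agent.TH117.FB.Main

/-!
# Semisimple quasi-geometric flat bundles: the generic lines of affine spaces suffice
-/

set_option autoImplicit false

open Pool.Agent.TH117.FB

namespace Pool.Agent.Results.MP_e3793a_ag.OnlyGenericLines

theorem result {P Ω Λ : Type} [Field P] [Field Ω] [Algebra P Ω] [Field Λ]
    (T : FBTheory P Ω Λ) (N : ℕ) : T.AllGeometric N ↔ T.LineGeometric N :=
  T.all_iff_line N

end Pool.Agent.Results.MP_e3793a_ag.OnlyGenericLines
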