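import Mathlib
import Pool.Agent.TH119.UF.Fin

/-!
# Geometricity with respect to a given family is decided by finitely many loops

Let `Y` be a variety whose fundamental group is generated by `r` elements, let `ρ` be the monodromy
representation of a semisimple flat bundle of rank `n` on `Y`, and `W` that of a Gauss-Manin
connection of rank `m` on `Y` (or on a dense open subset).  There are a finite set `Γ` of words in
`r` letters and a bound `B`, both depending on `r`, `n`, `m` only, such that the following holds.  If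
along the finitely many loops given by `Γ` the eigenvalues of the monodromy of `ρ` are eigenvalues
of the monodromy of `W`, then all irreducible constituents of `ρ` are subquotients of
`W^{⊗ a} ⊗ (W^∨)^{⊗ b}` with `a, b ≤ B`.  In particular they are geometric, and come from fibre
powers of the given family with a bounded number of factors.
-/

namespace Pool.Agent.Results.MP_e3793a_ag.UniformFiniteCriterion

/-- The representation `ρ` is irreducible: there are no stable subspaces except `0` and the whole
space. -/
def IsIrreducible {G : Type} [Group G] {n : ℕ}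
    (ρ : G →* Matrix.GeneralLinearGroup (Fin n) ℂ) : Prop :=
  ∀ V : Submodule ℂ (Fin n → ℂ),
    (∀ g, ∀ x ∈ V, (ρ g : Matrix (Fin n) (Fin n) ℂ).mulVec x ∈ V) → V = ⊥ ∨ V = ⊤

/-- `ρ` is a subquotient of the representation of `G` by the matrices `M(g)`: there are a subspace
`U` stable under all `M(g)` and an equivariant surjective linear map from `U` to the space of
`ρ`. -/
def IsSubquotient {G : Type} [Group G] {n : ℕ} {ι : Type} [Fintype ι]
    (ρ : G →* Matrix.GeneralLinearGroup (Fin n) ℂ) (M : G → Matrix ι ι ℂ) : Prop :=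
  ∃ (U : Submodule ℂ (ι → ℂ)) (hU : ∀ g, ∀ u ∈ U, (M g).mulVec u ∈ U)
    (π : U →ₗ[ℂ] (Fin n → ℂ)), Function.Surjective π ∧
    ∀ g (u : U), π ⟨(M g).mulVec u, hU g u u.2⟩ =
      (ρ g : Matrix (Fin n) (Fin n) ℂ).mulVec (π u)

/-- The matrices of the representation `W^{⊗ a} ⊗ (W^∨)^{⊗ b}` in the standard basis: the
coefficients are products of `a` coefficients of `W(g)` and `b` coefficients of the transpose of
`W(g⁻¹)`. -/
def tensorConstruction {G : Type} [Group G] {m : ℕ}
    (W : G →* Matrix.GeneralLinearGroup (Fin m) ℂ) (a b : ℕ) (g : G) :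
    Matrix ((Fin a → Fin m) × (Fin b → Fin m)) ((Fin a → Fin m) × (Fin b → Fin m)) ℂ :=
  Matrix.of fun I J => (∏ s, (W g : Matrix (Fin m) (Fin m) ℂ) (I.1 s) (J.1 s)) *
    ∏ t, (W g⁻¹ : Matrix (Fin m) (Fin m) ℂ) (J.2 t) (I.2 t)

/-- **Theorem.** Let `r`, `n`, `m` be natural numbers. There are a finite set `Γ` of words in `r`
letters and a number `B`, which depend on `r`, `n`, `m` only, such that for every group `G` with
generators `s 0, ..., s (r-1)` (for instance the fundamental group of a variety) and all
representations `ρ : G → GL_n(ℂ)` and `W : G → GL_m(ℂ)`: if for each word `w` in `Γ` every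
eigenvalue of `ρ(w(s))` is an eigenvalue of `W(w(s))`, then every irreducible subquotient `R` of `ρ`
is a subquotient of `W^{⊗ a} ⊗ (W^∨)^{⊗ b}` for some `a, b ≤ B`. -/
theorem result (r n m : ℕ) : ∃ (Γ : Finset (FreeGroup (Fin r))) (B : ℕ),
    ∀ (G : Type) [Group G] (s : Fin r → G), Subgroup.closure (Set.range s) = ⊤ →
      ∀ (ρ : G →* Matrix.GeneralLinearGroup (Fin n) ℂ)
        (W : G →* Matrix.GeneralLinearGroup (Fin m) ℂ),
      (∀ w ∈ Γ, ∀ α : ℂ,
        (ρ (FreeGroup.lift s w) : Matrix (Fin n) (Fin n) ℂ).charpoly.IsRoot α →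
        (W (FreeGroup.lift s w) : Matrix (Fin m) (Fin m) ℂ).charpoly.IsRoot α) →
      ∀ (t : ℕ) (R : G →* Matrix.GeneralLinearGroup (Fin t) ℂ), 0 < t → IsIrreducible R →
        IsSubquotient R (fun g => (ρ g : Matrix (Fin n) (Fin n) ℂ)) →
        ∃ a b : ℕ, a ≤ B ∧ b ≤ B ∧ IsSubquotient R (tensorConstruction W a b) :=
  Pool.Agent.TH119.UF.criterion r n m

end Pool.Agent.Results.MP_e3793a_ag.UniformFiniteCriterion
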